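import Pool.Agent.Helper58_MOO.Stmts

set_option autoImplicit false

/-!
# MOO module DKX (helper9): the generic accepted set
-/

open Cardinal
open Pool.Agent.Helper69_LOTS

namespace Pool.Agent.MOO.H9

open Pool.Agent.MOO Node

theorem orb_empty (z : Node) : orb {∅} z = {z} := by
  ext s
  constructor
  · rintro ⟨g, hg, rfl⟩
    rw [Finset.mem_singleton] at hg
    subst hg
    simp
  · intro h
    rw [Set.mem_singleton_iff] at h
    subst h
    exact ⟨∅, by simp, by simp⟩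

theorem sub_self {T : Set Node} (hT : AT T) : Sub T T := by
  refine ⟨fun _ h => h, hT.down, fun δ => ?_⟩
  obtain ⟨s, hs⟩ := hT.ne
  rcases le_total δ s.ht with h | h
  · exact ⟨s.res δ, hT.down s hs δ, res_ht_of_le h⟩
  · obtain ⟨t, ht, -, h2⟩ := hT.ext s hs δ h
    exact ⟨t, ht, h2⟩

theorem tr_mono {X Y : Set Node} (h : X ⊆ Y) (δ : Om) : tr X δ ⊆ tr Y δ := by
  rintro s ⟨x, hx, h1, h2⟩
  exact ⟨x, h hx, h1, h2⟩

theorem tr_finite (F : Finset Node) (δ : Om) : (tr (F : Set Node) δ).Finite := by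
  refine (F.finite_toSet.image (fun x => x.res δ)).subset ?_
  rintro s ⟨x, hx, -, h2⟩
  exact ⟨x, hx, h2.symm⟩

theorem dkx (hLuu : LuuStmt) (hDkp : DkpStmt) (hDkd : DkdStmt) (hCrd : CrdStmt) : DkxStmt := by
  classical
  intro pfa T K A C hT hL hA hNN
  obtain ⟨⟨c, hc⟩, -⟩ := hCrd
  have hNN' : NoNull T (Kf K {∅}) T := by
    intro B hB hS
    obtain ⟨w, hw, hw'⟩ := hNN B hB hS
    refine ⟨w, hw, ?_⟩
    intro g hg
    rw [Finset.mem_singleton] at hg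
    subst hg
    simpa using hw'
  obtain ⟨C', hC', hC'C, -, hluu⟩ := hLuu pfa T K A C hT hL hA T {∅} (sub_self hT.toAT)
    (fun s hs δ h => hT.ext s hs δ h) hNN'
  have hluu2 : ∀ δ ∈ C', ∀ x ∈ T, x.ht < δ → ∀ Y, Acc T K A δ Y →
      ∃ z ∈ T, x ≤ z ∧ z.ht = δ ∧ Acc T K A δ (Y ∪ {z}) := by
    intro δ hδ x hx hxδ Y hY
    obtain ⟨z, hz, h1, h2, h3⟩ := hluu δ hδ x hx hxδ Y hY
    rw [orb_empty] at h3
    exact ⟨z, hz, h1, h2, h3⟩
  have hpr := hDkp pfa T K A C C' c hT hL hA hC' hC'C hc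
  obtain ⟨hd1, hd2⟩ := hDkd T K A C C' c hT hL hA hC' hC'C hc hluu2
  have hne : Nonempty (DK T K A C' c) :=
    ⟨⟨∅, ∅, by simp, by simp, by simp, by simp⟩⟩
  obtain ⟨G, -, -, hGdir, hGD⟩ := pfa (DK T K A C' c) hpr
    (fun α => {p | (∃ x ∈ p.X, α ≤ x.ht) ∧ ∃ M ∈ p.N, α < dlt M}) (by
      intro α p
      obtain ⟨q, ⟨x, hx, h1⟩, hq⟩ := hd1 α p
      obtain ⟨r, ⟨M, hM, h2⟩, hr⟩ := hd2 α q
      exact ⟨r, ⟨⟨x, hr.1 hx, h1⟩, M, hM, h2⟩, le_trans hr hq⟩)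
  set X : Set Node := {x | ∃ p ∈ G, x ∈ p.X} with hX
  set E₀ : Set Om := {δ | ∃ p ∈ G, ∃ M ∈ p.N, δ = dlt M} with hE₀
  have hXT : X ⊆ T := by
    rintro x ⟨p, -, hx⟩
    exact p.hX x hx
  have hXunb : ∀ α, ∃ x ∈ X, α ≤ x.ht := by
    intro α
    obtain ⟨p, hp, ⟨x, hx, h1⟩, -⟩ := hGD α
    exact ⟨x, ⟨p, hp, hx⟩, h1⟩
  have hE₀unb : ∀ α, ∃ β ∈ E₀, α < β := by
    intro α
    obtain ⟨p, hp, -, M, hM, h1⟩ := hGD α
    exact ⟨dlt M, ⟨p, hp, M, hM, rfl⟩, h1⟩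
  have hE₀C : ∀ δ ∈ E₀, δ ∈ C := by
    rintro δ ⟨p, -, M, hM, rfl⟩
    exact hC'C (p.gd M hM).mem
  -- finite subsets of `X` are contained in a condition of `G`
  have hfin : ∀ F : Finset Node, (F : Set Node) ⊆ X → ∀ p ∈ G, ∃ q ∈ G, q ≤ p ∧ F ⊆ q.X := by
    intro F
    induction F using Finset.induction_on with
    | empty => intro _ p hp; exact ⟨p, hp, le_rfl, by simp⟩
    | insert x F hx ih =>
      intro hF p hp
      obtain ⟨q, hq, hqp, hFq⟩ := ih (fun y hy => hF (by simp [Finset.mem_coe.1 hy])) p hp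
      obtain ⟨r, hr, hxr⟩ := hF (show x ∈ ((insert x F : Finset Node) : Set Node) by simp)
      obtain ⟨s, hs, hsq, hsr⟩ := hGdir q hq r hr
      refine ⟨s, hs, le_trans hsq hqp, ?_⟩
      intro y hy
      rcases Finset.mem_insert.1 hy with rfl | hy
      · exact hsr.1 hxr
      · exact hsq.1 (hFq hy)
  have hacc0 : ∀ δ ∈ E₀, ∀ F : Finset Node, (F : Set Node) ⊆ X →
      Acc T K A δ (tr (F : Set Node) δ) := by
    intro δ hδ F hF
    have hδC := hE₀C δ hδ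
    obtain ⟨p, hp, M, hM, rfl⟩ := hδ
    obtain ⟨q, hq, hqp, hFq⟩ := hfin F hF p hp
    exact hA.mono _ hδC _ _ (q.acc M (hqp.2 hM)) (tr_mono (by exact_mod_cast hFq) _)
  refine ⟨X, hXT, ?_, {δ | δ ∈ E₀ ∨ ((∃ ξ, ξ < δ) ∧ ∀ ξ, ξ < δ → ∃ η ∈ E₀, ξ < η ∧ η < δ)},
    ⟨?_, ?_⟩, ?_, ?_⟩
  · intro hXc
    obtain ⟨β, hβ⟩ := Om_bdd (hXc.image Node.ht)
    obtain ⟨x, hx, h1⟩ := hXunb β
    exact absurd (hβ x.ht ⟨x, hx, rfl⟩) (not_lt.2 h1)
  · intro α
    obtain ⟨β, hβ, h1⟩ := hE₀unb α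
    exact ⟨β, Or.inl hβ, h1⟩
  · intro δ h1 h2
    refine Or.inr ⟨h1, fun ξ hξ => ?_⟩
    obtain ⟨η, hη, h3, h4⟩ := h2 ξ hξ
    rcases hη with hη | ⟨-, hη⟩
    · exact ⟨η, hη, h3, h4⟩
    · obtain ⟨η', hη', h5, h6⟩ := hη ξ h3
      exact ⟨η', hη', h5, h6.trans h4⟩
  · intro δ hδ
    rcases hδ with hδ | ⟨h1, h2⟩
    · exact hE₀C δ hδ
    · refine hL.clb.2 δ h1 (fun ξ hξ => ?_)
      obtain ⟨η, hη, h3⟩ := h2 ξ hξ
      exact ⟨η, hE₀C η hη, h3⟩
  · intro δ hδ F hF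
    rcases hδ with hδ | ⟨h1, h2⟩
    · exact hacc0 δ hδ F hF
    · have hδC : δ ∈ C := by
        refine hL.clb.2 δ h1 (fun ξ hξ => ?_)
        obtain ⟨η, hη, h3⟩ := h2 ξ hξ
        exact ⟨η, hE₀C η hη, h3⟩
      by_contra hcon
      obtain ⟨t, ht, htδ⟩ := (sub_self hT.toAT).2.2 δ
      obtain ⟨f, hf, hft⟩ := hA.rep δ hδC t ht htδ (tr (F : Set Node) δ) (tr_finite F δ) (by
        rintro s ⟨x, hx, h3, rfl⟩
        exact ⟨hT.down x (hXT (hF hx)) δ, res_ht_of_le h3⟩)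
      rw [hft] at hcon
      obtain ⟨η, hη, htη, hD⟩ := hA.dich δ hδC f hf t ht htδ hcon
      -- a bound below `δ`
      have hb : ∃ ξ, ξ < δ ∧ η ≤ ξ ∧ (∀ g ∈ f, ∀ ζ ∈ g, ζ ≤ ξ) ∧
          ∀ x ∈ F, x.ht < δ → x.ht ≤ ξ := by
        set S : Finset Om := insert η (f.biUnion id ∪ (F.image Node.ht).filter (· < δ)) with hS
        have hSne : S.Nonempty := ⟨η, by simp [hS]⟩
        refine ⟨S.max' hSne, ?_, S.le_max' _ (by simp [hS]), ?_, ?_⟩
        · rw [Finset.max'_lt_iff]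
          intro y hy
          rw [hS, Finset.mem_insert, Finset.mem_union, Finset.mem_biUnion,
            Finset.mem_filter] at hy
          rcases hy with rfl | ⟨g, hg, hy⟩ | ⟨-, hy⟩
          · exact hη
          · exact hf g hg y hy
          · exact hy
        · intro g hg ζ hζ
          refine S.le_max' _ ?_
          rw [hS, Finset.mem_insert, Finset.mem_union, Finset.mem_biUnion]
          exact Or.inr (Or.inl ⟨g, hg, hζ⟩)
        · intro x hx hxδ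
          refine S.le_max' _ ?_
          rw [hS, Finset.mem_insert, Finset.mem_union, Finset.mem_filter]
          exact Or.inr (Or.inr ⟨Finset.mem_image_of_mem _ hx, hxδ⟩)
      obtain ⟨ξ, hξδ, hηξ, hfξ, hFξ⟩ := hb
      obtain ⟨δ', hδ', hξδ', hδ'δ⟩ := h2 ξ hξδ
      have htr : tr (F : Set Node) δ' = orb f (t.res δ') := by
        ext s
        constructor
        · rintro ⟨x, hx, h3, rfl⟩
          have h4 : δ ≤ x.ht := by
            by_contra h5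
            have := hFξ x hx (not_le.1 h5)
            exact absurd (h3.trans this) (not_le.2 hξδ')
          have h5 : x.res δ ∈ orb f t := by
            rw [← hft]; exact ⟨x, hx, h4, rfl⟩
          obtain ⟨g, hg, h6⟩ := h5
          refine ⟨g, hg, ?_⟩
          rw [flip_res, ← h6, res_res_of_le x hδ'δ.le]
        · rintro ⟨g, hg, rfl⟩
          have h5 : flip g t ∈ tr (F : Set Node) δ := by
            rw [hft]; exact ⟨g, hg, rfl⟩
          obtain ⟨x, hx, h3, h6⟩ := h5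
          refine ⟨x, hx, hδ'δ.le.trans h3, ?_⟩
          rw [flip_res, h6, res_res_of_le x hδ'δ.le]
      have h7 := hacc0 δ' hδ' F hF
      rw [htr] at h7
      exact hA.excl δ' (hE₀C δ' hδ') f (fun g hg ζ hζ => (hfξ g hg ζ hζ).trans_lt hξδ')
        (t.res δ') (hT.down t ht δ') (res_ht_of_le (hδ'δ.le.trans htδ.ge))
        ⟨η, hηξ.trans_lt hξδ', (hL.tree η).2 t htη δ', hD⟩ h7

end Pool.Agent.MOO.H9
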